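import Pool.Agent.Q283.FT.Stm2
import Pool.Agent.Q38.EN.EEX

/-!
# Project FT of helper283, job CGE: the number of the classes (adapted from `Pool.Agent.Q38.EN.EEX`)
-/

set_option autoImplicit false

namespace Pool.Agent.Q130.FT

open NumberField IsDedekindDomain Finset
open Pool.Agent.Q7.LK Pool.Agent.Q14.LK Pool.Agent.Q283.FT
open Pool.Agent.Q283.LQ (Sm nS)
open Pool.Agent.Q38.EN (apx_all cls_div)

/-- **JOB CGE.** -/
theorem cge (hB : Pool.Agent.Q7.LK.S_BAS) : Pool.Agent.Q283.FT.S_CGE := by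
  classical
  haveI : Fact (Nat.Prime 2) := ⟨Nat.prime_two⟩
  intro F _ _ ζ hζ y f u r π B hfin A hL 𝓛 hM n hn
  haveI : Fintype {v : HeightOneSpectrum (𝓞 F) // Sm y v} := hfin.fintype
  choose Bf hBc hBA hBd using fun v : {v : HeightOneSpectrum (𝓞 F) // Sm y v} => hn v.1 v.2
  obtain ⟨ext, hext⟩ : ∃ ext : ({v : HeightOneSpectrum (𝓞 F) // Sm y v} → F) → HeightOneSpectrum (𝓞 F) → F,
      ∀ t (v : {v : HeightOneSpectrum (𝓞 F) // Sm y v}), ext t v.1 = t v :=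
    ⟨fun t v => if h : Sm y v then t ⟨v, h⟩ else 1, fun t v => dif_pos v.2⟩
  have hap1 : ∀ s : {v : HeightOneSpectrum (𝓞 F) // Sm y v} → F, (∀ v, s v ≠ 0) → ∃ e : F,
      e ≠ 0 ∧ ∀ v : {v : HeightOneSpectrum (𝓞 F) // Sm y v}, Lpw 2 v.1 (e / s v) := by
    intro s hs
    obtain ⟨e, he, h⟩ := apx_all hB 2 hfin.toFinset (ext s) (fun v hv => by
      have hv' : Sm y v := (hfin.mem_toFinset.1 hv)
      rw [hext s ⟨v, hv'⟩]
      exact hs _)
    refine ⟨e, he, fun v => ?_⟩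
    have h1 := h v.1 (hfin.mem_toFinset.2 v.2)
    rwa [hext] at h1
  have hap : ∀ t : {v : HeightOneSpectrum (𝓞 F) // Sm y v} → F × F, ∃ e : F × F, t ∈ Fintype.piFinset Bf →
      (e.1 ≠ 0 ∧ e.2 ≠ 0) ∧ ∀ v : {v : HeightOneSpectrum (𝓞 F) // Sm y v},
        Lpw 2 v.1 (e.1 / (t v).1) ∧ Lpw 2 v.1 (e.2 / (t v).2) := by
    intro t
    by_cases ht : t ∈ Fintype.piFinset Bf
    · have hne : ∀ v, (t v).1 ≠ 0 ∧ (t v).2 ≠ 0 := fun v =>
        hL.ne v.1 _ _ v.2 (hBA v _ (Fintype.mem_piFinset.1 ht v))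
      obtain ⟨e, he, h⟩ := hap1 (fun v => (t v).1) fun v => (hne v).1
      obtain ⟨e', he', h'⟩ := hap1 (fun v => (t v).2) fun v => (hne v).2
      exact ⟨(e, e'), fun _ => ⟨⟨he, he'⟩, fun v => ⟨h v, h' v⟩⟩⟩
    · exact ⟨(1, 1), fun h => absurd h ht⟩
  choose e he using hap
  have hcl : ∀ t : {v : HeightOneSpectrum (𝓞 F) // Sm y v} → F × F,
      ∃ z : ((Fin f → ZMod 2) × (Fin f → ZMod 2)) × ((Fin f → ZMod 2) × (Fin f → ZMod 2)),
      t ∈ Fintype.piFinset Bf →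
        (((fun s => (z.1.2 s, z.2.2 s)), fun s => (z.1.1 s, z.2.1 s)) : (Fin f → U2) × (Fin f → U2)) ∈ 𝓛 ∧
        Nn 2 y ((e t).1 * mon r z.1.1 * mon u z.1.2) ∧ Nn 2 y ((e t).2 * mon r z.2.1 * mon u z.2.2) := by
    intro t
    by_cases ht : t ∈ Fintype.piFinset Bf
    · obtain ⟨⟨he0, he0'⟩, he1⟩ := he t ht
      obtain ⟨x, hx, -⟩ := B.cls (e t).1 he0
      obtain ⟨x', hx', -⟩ := B.cls (e t).2 he0'
      refine ⟨(x, x'), fun _ => ⟨(hM (e t).1 (e t).2 x x' he0 he0' hx hx').2 fun v hv => ?_, hx, hx'⟩⟩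
      have h1 := hBA ⟨v, hv⟩ _ (Fintype.mem_piFinset.1 ht ⟨v, hv⟩)
      have h2 := hL.mul v _ _ _ _ hv h1 (hL.pow v _ _ hv (he1 ⟨v, hv⟩).1 (he1 ⟨v, hv⟩).2)
      obtain ⟨h0, h0'⟩ := hL.ne v _ _ hv h1
      have h3 : (t ⟨v, hv⟩).1 * ((e t).1 / (t ⟨v, hv⟩).1) = (e t).1 := by field_simp
      have h3' : (t ⟨v, hv⟩).2 * ((e t).2 / (t ⟨v, hv⟩).2) = (e t).2 := by field_simp
      rwa [h3, h3'] at h2
    · exact ⟨0, fun h => absurd h ht⟩
  choose z hz using hcl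
  have hinj : ∀ t ∈ Fintype.piFinset Bf, ∀ t' ∈ Fintype.piFinset Bf, z t = z t' → t = t' := by
    intro t ht t' ht' hxx
    have h1 := (hz t ht).2
    have h2 := (hz t' ht').2
    rw [← hxx] at h2
    have h3 := cls_div hB B (he t' ht').1.1 h1.1 h2.1
    have h3' := cls_div hB B (he t' ht').1.2 h1.2 h2.2
    funext v
    by_contra hne
    refine hBd v (t v) (Fintype.mem_piFinset.1 ht v) (t' v) (Fintype.mem_piFinset.1 ht' v) hne ?_
    have h4 := (he t ht).2 v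
    have h5 := (he t' ht').2 v
    have n1 := (he t ht).1
    have n2 := (he t' ht').1
    have n3 := hL.ne v.1 _ _ v.2 (hBA v _ (Fintype.mem_piFinset.1 ht v))
    have n4 := hL.ne v.1 _ _ v.2 (hBA v _ (Fintype.mem_piFinset.1 ht' v))
    obtain ⟨n11, n12⟩ := n1
    obtain ⟨n21, n22⟩ := n2
    obtain ⟨n31, n32⟩ := n3
    obtain ⟨n41, n42⟩ := n4
    have h6 := lpw_mul hB (lpw_mul hB (h3.2 v.1 v.2) (lpw_inv hB h4.1)) h5.1
    have h6' := lpw_mul hB (lpw_mul hB (h3'.2 v.1 v.2) (lpw_inv hB h4.2)) h5.2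
    have h7 : (e t).1 / (e t').1 * ((e t).1 / (t v).1)⁻¹ * ((e t').1 / (t' v).1) = (t v).1 / (t' v).1 := by
      field_simp
    have h7' : (e t).2 / (e t').2 * ((e t).2 / (t v).2)⁻¹ * ((e t').2 / (t' v).2) = (t v).2 / (t' v).2 := by
      field_simp
    rw [h7] at h6
    rw [h7'] at h6'
    exact ⟨h6, h6'⟩
  have hcard : (Fintype.piFinset Bf).card ≤ Nat.card 𝓛 := by
    rw [← Nat.card_eq_finsetCard]
    refine Nat.card_le_card_of_injective (fun t : (Fintype.piFinset Bf) => (⟨_, (hz t.1 t.2).1⟩ : 𝓛)) ?_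
    intro t t' h
    have h1 := congrArg Subtype.val h
    have h2 := congrArg Prod.fst h1
    have h3 := congrArg Prod.snd h1
    dsimp only at h2 h3
    refine Subtype.ext (hinj t.1 t.2 t'.1 t'.2 (Prod.ext (Prod.ext ?_ ?_) (Prod.ext ?_ ?_)))
    · funext s
      exact congrArg Prod.fst (congrFun h3 s)
    · funext s
      exact congrArg Prod.fst (congrFun h2 s)
    · funext s
      exact congrArg Prod.snd (congrFun h3 s)
    · funext s
      exact congrArg Prod.snd (congrFun h2 s)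
  refine le_trans ?_ hcard
  rw [Fintype.card_piFinset, finsum_eq_sum_of_fintype, ← Finset.prod_pow_eq_pow_sum]
  exact Finset.prod_le_prod (fun v _ => Nat.zero_le _) fun v _ => hBc v

end Pool.Agent.Q130.FT
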